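import Pool.Agent.H75.ERG.Targets

set_option autoImplicit false
set_option linter.unusedVariables false

namespace Pool.Agent.H34.EG

open MeasureTheory Set Metric Filter Topology Pool.Agent.H93.BL
open Pool.Agent.H93.EN (av md rf chi gchi Bd Ml Nl Inv Agr sg VV Chart LS Phi)
open Pool.Agent.H93.EG (InvG Sm gN hN nrm)
open Pool.Agent.H75.ERG

theorem xin_bd0 : Bd (fun _ _ => 0) :=
  ⟨measurable_const, fun _ _ => ⟨le_rfl, zero_le_one⟩, 0, fun _ _ _ => rfl⟩

theorem xin_bd (hBD : T_BDG) {ι : Type} (P : Polygon ι) {κ a : ℝ} (hL : LS P κ)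
    {G : ℂ → ℂ → ℝ} (hG : Van P a G) (x : ℂ) : Bd (XG P κ a G x) := by
  by_cases hx : x ∈ P.Ω
  · rcases XG_cases P κ a hL G x hx with ⟨-, h⟩ | ⟨-, τ, -, h⟩
    · rw [h]
      exact xin_bd0
    · rw [h]
      exact hBD ι P G hG.meas hG.bd hG.out τ
  · rw [XG_out P κ a G x hx]
    exact xin_bd0

theorem xin_zero (hCHT : Pool.Agent.H93.EN.T_CHT) {ι : Type} (P : Polygon ι) {a δ : ℝ}
    {G : ℂ → ℂ → ℝ} (hG : Van P a G) {x : ℂ} {R : ℝ} {τ : Option ι} (hc : Chart P x R τ)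
    (hx : infDist x (VV P) + 2 * δ ≤ 2 * a) (y : ℂ) (hy : y ∈ ball x (2 * δ)) (w : ℂ) :
    Phi P G τ y w = 0 := by
  have hy' : dist y x < 2 * δ := hy
  cases τ with
  | none =>
    change G y w = 0
    apply hG.van
    have := infDist_le_infDist_add_dist (s := VV P) (x := y) (y := x)
    linarith
  | some j =>
    change (if 0 < sg P j y then G y w else G (P.aff j y) (P.refl j w)) = 0
    by_cases h : 0 < sg P j y
    · rw [if_pos h]
      apply hG.van
      have := infDist_le_infDist_add_dist (s := VV P) (x := y) (y := x)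
      linarith
    · rw [if_neg h]
      apply hG.van
      have h1 := ((hCHT ι P).2.1 j y x).2.2 hc.1 (not_lt.1 h)
      have h2 := infDist_le_infDist_add_dist (s := VV P) (x := P.aff j y) (y := x)
      linarith

theorem xin_sg_open {ι : Type} (P : Polygon ι) (j : ι) : IsOpen {y | 0 < sg P j y} := by
  apply isOpen_lt continuous_const
  unfold sg cr
  fun_prop

theorem xin_claim (hCHT : Pool.Agent.H93.EN.T_CHT) (hAG : Pool.Agent.H93.EN.T_AG) {ι : Type}
    (P : Polygon ι) {κ a δ : ℝ} (hL : LS P κ) (ha : 0 < a) (hδ : 0 < δ) (hδa : 16 * δ ≤ κ * a)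
    {G : ℂ → ℂ → ℝ} (hG : Van P a G) {x₀ : ℂ} (hx₀ : x₀ ∈ P.Ω) (hρ : a ≤ infDist x₀ (VV P))
    {τ₀ : Option ι} (hc₀ : Chart P x₀ (κ * infDist x₀ (VV P)) τ₀) {x : ℂ} (hx : x ∈ P.Ω)
    (hxx : dist x x₀ < δ) (hsg : ∀ j, τ₀ = some j → 0 < sg P j x) :
    Agr (XG P κ a G x) (Phi P G τ₀) x₀ (2 * δ) := by
  have hκ := hL.1
  have hκ4 := hL.2.1
  have hδ64 : 64 * δ ≤ a := by
    have : κ * a ≤ 1 / 4 * a := by gcongr
    linarith
  rcases XG_cases P κ a hL G x hx with ⟨h1, h⟩ | ⟨h1, τ, hc, h⟩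
  · rw [h]
    refine Filter.Eventually.of_forall fun y hy w => ?_
    refine (xin_zero hCHT P hG hc₀ ?_ y hy w).symm
    have := infDist_le_infDist_add_dist (s := VV P) (x := x₀) (y := x)
    rw [dist_comm] at this
    linarith
  · rw [h]
    have hR0 : κ * a ≤ κ * infDist x₀ (VV P) := by gcongr
    have hR : κ * a ≤ κ * infDist x (VV P) := by gcongr
    have c1 : Chart P x (8 * δ) τ₀ := by
      refine (hCHT ι P).1 x₀ x _ _ τ₀ hc₀ (by linarith) fun j hj => (hsg j hj).le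
    have c2 : Chart P x (8 * δ) τ := by
      refine (hCHT ι P).1 x x _ _ τ hc (by rw [dist_self]; linarith) fun j hj => ?_
      subst hj
      exact hc.1
    have h3 := hAG ι P G x (8 * δ) τ τ₀ hx (by positivity) c2 c1
    filter_upwards [h3] with y hy hyb w
    apply hy
    rw [mem_ball] at hyb ⊢
    have := dist_triangle y x₀ x
    rw [dist_comm x₀ x] at this
    linarith

theorem xin (hCHT : Pool.Agent.H93.EN.T_CHT) (hAG : Pool.Agent.H93.EN.T_AG) (hBD : T_BDG) :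
    T_XIN := by
  intro ι P κ hL a δ ha hδ hδa G hG
  refine ⟨fun x => xin_bd hBD P hL hG x, ?_⟩
  intro x₀ hx₀
  obtain ⟨s₁, hs₁, hb₁⟩ := Metric.isOpen_iff.1 P.isOpen x₀ hx₀
  rcases lt_or_ge (infDist x₀ (VV P)) a with hlt | hge
  · refine ⟨min s₁ (a - infDist x₀ (VV P)), lt_min hs₁ (by linarith), fun x hx => ?_⟩
    rw [mem_ball, lt_min_iff] at hx
    refine ⟨hb₁ hx.1, ?_⟩
    have h1 : infDist x (VV P) ≤ a := by
      have := infDist_le_infDist_add_dist (s := VV P) (x := x) (y := x₀)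
      linarith [hx.2]
    rw [XG_zero P κ a G x h1, XG_zero P κ a G x₀ hlt.le]
    exact Filter.Eventually.of_forall fun y _ w => rfl
  · obtain ⟨τ₀, hc₀⟩ := hL.2.2.1 x₀ hx₀
    have hκ := hL.1
    have hR0 : κ * a ≤ κ * infDist x₀ (VV P) := by gcongr
    have hs2 : ∃ s₂ > (0 : ℝ), ∀ x ∈ ball x₀ s₂, ∀ j, τ₀ = some j → 0 < sg P j x := by
      cases τ₀ with
      | none => exact ⟨1, one_pos, fun x _ j hj => by simp at hj⟩
      | some i =>
        have h1 : 0 < sg P i x₀ :=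
          (hCHT ι P).2.2.1 x₀ _ i hx₀ (by linarith [mul_pos hκ ha]) hc₀
        obtain ⟨s₂, hs₂, hb₂⟩ := Metric.isOpen_iff.1 (xin_sg_open P i) x₀ h1
        refine ⟨s₂, hs₂, fun x hx j hj => ?_⟩
        obtain rfl : i = j := Option.some.inj hj
        exact hb₂ hx
    obtain ⟨s₂, hs₂, hb₂⟩ := hs2
    refine ⟨min s₁ (min s₂ δ), lt_min hs₁ (lt_min hs₂ hδ), fun x hx => ?_⟩
    rw [mem_ball, lt_min_iff, lt_min_iff] at hx
    refine ⟨hb₁ hx.1, ?_⟩
    have a1 := xin_claim hCHT hAG P hL ha hδ hδa hG hx₀ hge hc₀ (hb₁ hx.1) hx.2.2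
      (hb₂ x hx.2.1)
    have a2 := xin_claim hCHT hAG P hL ha hδ hδa hG hx₀ hge hc₀ hx₀
      (by rw [dist_self]; exact hδ) (hb₂ x₀ (mem_ball_self hs₂))
    filter_upwards [a1, a2] with y h1 h2 hy w
    rw [h1 hy w, h2 hy w]

end Pool.Agent.H34.EG
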